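import Pool.Agent.TH933.SPC.Stm

set_option autoImplicit false

open Matrix

namespace Pool.Agent.TH933.SPC

open Pool.Agent.TH610.CSP

namespace Sym99

variable {g : ℕ}

/-- the plane matrix -/
def LM (i : Fin g) (a b c d : ℤ) : MG g :=
  fromBlocks (1 + Matrix.single i i (a - 1)) (Matrix.single i i b)
    (Matrix.single i i c) (1 + Matrix.single i i (d - 1))

theorem LM_mul (i : Fin g) (a b c d a' b' c' d' : ℤ) :
    LM i a b c d * LM i a' b' c' d' =
      LM i (a * a' + b * c') (a * b' + b * d') (c * a' + d * c') (c * b' + d * d') := by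
  unfold LM
  rw [fromBlocks_multiply]
  congr 1
  · simp only [Matrix.add_mul, Matrix.mul_add, Matrix.one_mul, Matrix.mul_one,
      Matrix.single_mul_single_same]
    have h : a * a' + b * c' - 1 = (a' - 1) + ((a - 1) + (a - 1) * (a' - 1)) + b * c' := by ring
    rw [h]
    simp only [Matrix.single_add]
    abel
  · simp only [Matrix.add_mul, Matrix.mul_add, Matrix.one_mul, Matrix.mul_one,
      Matrix.single_mul_single_same]
    have h : a * b' + b * d' = b' + (a - 1) * b' + (b + b * (d' - 1)) := by ring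
    rw [h]
    simp only [Matrix.single_add]
  · simp only [Matrix.add_mul, Matrix.mul_add, Matrix.one_mul, Matrix.mul_one,
      Matrix.single_mul_single_same]
    have h : c * a' + d * c' = (c + c * (a' - 1)) + (c' + (d - 1) * c') := by ring
    rw [h]
    simp only [Matrix.single_add]
  · simp only [Matrix.add_mul, Matrix.mul_add, Matrix.one_mul, Matrix.mul_one,
      Matrix.single_mul_single_same]
    have h : c * b' + d * d' - 1 = c * b' + ((d' - 1) + ((d - 1) + (d - 1) * (d' - 1))) := by ring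
    rw [h]
    simp only [Matrix.single_add]
    abel

theorem LM_one (i : Fin g) : LM i 1 0 0 1 = 1 := by
  unfold LM
  simp [fromBlocks_one]

theorem exists_lam (i : Fin g) (a b c d : ℤ) (h : a * d - b * c = 1) :
    ∃ A : GG g, IsLam i a b c d A := by
  refine ⟨⟨LM i a b c d, LM i d (-b) (-c) a, ?_, ?_⟩, rfl⟩
  · rw [LM_mul, ← LM_one i]
    congr 1
    · linear_combination h
    · ring
    · ring
    · linear_combination h
  · rw [LM_mul, ← LM_one i]
    congr 1
    · linear_combination h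
    · ring
    · ring
    · linear_combination h

theorem lam_mul {i : Fin g} {a b c d a' b' c' d' : ℤ} {A B : GG g} (hA : IsLam i a b c d A)
    (hB : IsLam i a' b' c' d' B) :
    IsLam i (a * a' + b * c') (a * b' + b * d') (c * a' + d * c') (c * b' + d * d') (A * B) := by
  have hA' : (A : MG g) = LM i a b c d := hA
  have hB' : (B : MG g) = LM i a' b' c' d' := hB
  show ((A * B : GG g) : MG g) = LM i _ _ _ _
  rw [Units.val_mul, hA', hB', LM_mul]

theorem lam_eq {i : Fin g} {a b c d : ℤ} {A B : GG g} (hA : IsLam i a b c d A)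
    (hB : IsLam i a b c d B) : A = B :=
  Units.ext (hA.trans hB.symm)

theorem lam_congr {i : Fin g} {a b c d a' b' c' d' : ℤ} {A : GG g} (hA : IsLam i a b c d A)
    (h1 : a = a') (h2 : b = b') (h3 : c = c') (h4 : d = d') : IsLam i a' b' c' d' A := by
  subst h1; subst h2; subst h3; subst h4; exact hA

theorem mem_U {P : Subgroup (GG g)} {m : ℕ} (hP : Good P m) {i : Fin g} {t : ℤ}
    (ht : (m : ℤ) ∣ t) {A : GG g} (hA : IsLam i 1 t 0 1 A) : A ∈ P := by
  obtain ⟨s, rfl⟩ := ht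
  refine hP.hU (Matrix.single i i s) (Matrix.transpose_single _ _ _) A ?_
  show (A : MG g) = _
  rw [show (A : MG g) = LM i 1 (m * s) 0 1 from hA]
  unfold LM
  simp [Matrix.smul_single]

theorem mem_L {P : Subgroup (GG g)} {m : ℕ} (hP : Good P m) {i : Fin g} {t : ℤ}
    (ht : (m : ℤ) ∣ t) {A : GG g} (hA : IsLam i 1 0 t 1 A) : A ∈ P := by
  obtain ⟨s, rfl⟩ := ht
  refine hP.hL (Matrix.single i i s) (Matrix.transpose_single _ _ _) A ?_
  show (A : MG g) = _
  rw [show (A : MG g) = LM i 1 0 (m * s) 1 from hA]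
  unfold LM
  simp [Matrix.smul_single]

/-- square classes modulo `p ≡ 3 mod 4` -/
theorem sq_exists (p : ℕ) [Fact p.Prime] (h3 : p % 4 = 3) (b m : ℤ) (hb : ¬ (p : ℤ) ∣ b)
    (hm : ¬ (p : ℤ) ∣ m) : ∃ eps q : ℤ, (eps = 1 ∨ eps = -1) ∧ q ≠ 0 ∧
      (p : ℤ) ∣ eps * m * q ^ 2 - b := by
  have hb' : (b : ZMod p) ≠ 0 := fun h => hb ((ZMod.intCast_zmod_eq_zero_iff_dvd b p).1 h)
  have hm' : (m : ZMod p) ≠ 0 := fun h => hm ((ZMod.intCast_zmod_eq_zero_iff_dvd m p).1 h)
  have key : ∀ eps : ℤ, (eps = 1 ∨ eps = -1) → IsSquare ((eps : ZMod p) * ((b : ZMod p) * (m : ZMod p)⁻¹)) →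
      ∃ eps q : ℤ, (eps = 1 ∨ eps = -1) ∧ q ≠ 0 ∧ (p : ℤ) ∣ eps * m * q ^ 2 - b := by
    intro eps he hs
    obtain ⟨r, hr⟩ := hs
    obtain ⟨q, rfl⟩ := ZMod.intCast_surjective r
    have he2 : eps * eps = 1 := by rcases he with rfl | rfl <;> norm_num
    have he2' : (eps : ZMod p) * (eps : ZMod p) = 1 := by
      have := congrArg (Int.cast : ℤ → ZMod p) he2
      simpa using this
    have hmain : ((eps : ZMod p) * m * q ^ 2 - b) = 0 := by
      have h1 : (q : ZMod p) ^ 2 = (eps : ZMod p) * ((b : ZMod p) * (m : ZMod p)⁻¹) := by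
        rw [hr]; ring
      rw [h1]
      have h2 : (m : ZMod p) * (m : ZMod p)⁻¹ = 1 := mul_inv_cancel₀ hm'
      linear_combination (b : ZMod p) * ((m : ZMod p) * (m : ZMod p)⁻¹) * he2' + (b : ZMod p) * h2
    refine ⟨eps, q, he, ?_, ?_⟩
    · rintro rfl
      apply hb'
      have := hmain
      simp at this
      exact this
    · rw [← ZMod.intCast_zmod_eq_zero_iff_dvd]
      push_cast
      exact hmain
  by_cases hs : IsSquare ((b : ZMod p) * (m : ZMod p)⁻¹)
  · exact key 1 (Or.inl rfl) (by simpa using hs)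
  · refine key (-1) (Or.inr rfl) ?_
    have hne : ((b : ZMod p) * (m : ZMod p)⁻¹) ≠ 0 := mul_ne_zero hb' (inv_ne_zero hm')
    have h1 : ((b : ZMod p) * (m : ZMod p)⁻¹) ^ (p / 2) = -1 := by
      rcases ZMod.pow_div_two_eq_neg_one_or_one p hne with h | h
      · exact absurd ((ZMod.euler_criterion p hne).2 h) hs
      · exact h
    have h2 : (-1 : ZMod p) ^ (p / 2) = -1 := by
      have hodd : Odd (p / 2) := by
        rw [Nat.odd_iff]; omega
      exact hodd.neg_one_pow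
    have hne2 : (((-1 : ℤ) : ZMod p) * ((b : ZMod p) * (m : ZMod p)⁻¹)) ≠ 0 :=
      mul_ne_zero (by simp) hne
    rw [ZMod.euler_criterion p hne2, mul_pow, h1]
    push_cast
    rw [h2]
    ring

/-- Dirichlet -/
theorem dirichlet (a n : ℤ) (hn : n ≠ 0) (h : IsCoprime a n) : ∃ p : ℕ, p.Prime ∧
    n ∣ (p : ℤ) + a ∧ (n.natAbs) < p := by
  have : NeZero n.natAbs := ⟨Int.natAbs_ne_zero.2 hn⟩
  have hu : IsUnit (((-a : ℤ)) : ZMod n.natAbs) := by
    rw [ZMod.coe_int_isUnit_iff_isCoprime]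
    have h1 : IsCoprime (n.natAbs : ℤ) (-a) := by
      rw [Int.isCoprime_iff_gcd_eq_one] at h ⊢
      simp only [Int.gcd_neg, Int.natCast_natAbs]
      rw [Int.gcd_comm] at h
      rw [← h]
      simp [Int.gcd, Int.natAbs_abs]
    exact h1
  obtain ⟨p, hp1, hp2, hp3⟩ := Nat.forall_exists_prime_gt_and_eq_mod hu n.natAbs
  refine ⟨p, hp2, ?_, hp1⟩
  have h2 : (((p : ℤ) + a : ℤ) : ZMod n.natAbs) = 0 := by
    push_cast
    rw [hp3]
    push_cast
    ring
  have h3 := (ZMod.intCast_zmod_eq_zero_iff_dvd _ _).1 h2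
  exact Int.natAbs_dvd.1 h3

/-- the case `a = -p` -/
theorem core {P : Subgroup (GG g)} {m : ℕ} (hS : StSQ) (hP : Good P m) {i k : Fin g} (hik : i ≠ k)
    {n eps q c d : ℤ} (he : eps * eps = 1) (hq : q ≠ 0) (hn : (m : ℤ) ^ 2 ∣ n - 1)
    (hc : (m : ℤ) ∣ c) (hd : (m : ℤ) ∣ d - 1) (hdet : n * d - (eps * m * q ^ 2) * c = 1) {A : GG g}
    (hA : IsLam i n (eps * m * q ^ 2) c d A) : A ∈ P := by
  have hn1 : (m : ℤ) ∣ n - 1 := (Dvd.intro_left _ (sq (m : ℤ)).symm).trans hn
  have hb : (m : ℤ) ∣ eps * m := Dvd.intro_left _ rfl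
  obtain ⟨B, hB⟩ := exists_lam k n (-(eps * m)) (-(q ^ 2 * c)) d (by linear_combination hdet)
  obtain ⟨A3, hA3⟩ := exists_lam i n (eps * m) (q ^ 2 * c) d (by linear_combination hdet)
  have h1 : A * B ∈ P := by
    refine hS g P m hP i k hik q n (eps * m) c d hq hn1 hb hc hd (by linear_combination hdet) A B
      (lam_congr hA rfl (by ring) rfl rfl) hB
  have h2 : A3 * B ∈ P := by
    refine hS g P m hP i k hik 1 n (eps * m) (q ^ 2 * c) d one_ne_zero hn1 hb (hc.mul_left _) hd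
      (by linear_combination hdet) A3 B (lam_congr hA3 rfl (by ring) rfl rfl)
      (lam_congr hB rfl rfl (by ring) rfl)
  have h3 : A3 ∈ P := by
    obtain ⟨w, hw⟩ := hn
    -- `n + (eps m) (m u) = 1`, `u = -eps w`
    obtain ⟨R, hR⟩ := exists_lam i 1 0 ((m : ℤ) * (-eps * w)) 1 (by ring)
    have hRP : R ∈ P := mem_L hP (Dvd.intro _ rfl) hR
    obtain ⟨L1, hL1⟩ := exists_lam i 1 0 (q ^ 2 * c + d * ((m : ℤ) * (-eps * w))) 1 (by ring)
    have hL1P : L1 ∈ P :=
      mem_L hP (dvd_add (hc.mul_left _) (Dvd.dvd.mul_left (Dvd.intro _ rfl) _)) hL1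
    obtain ⟨U1, hU1⟩ := exists_lam i 1 (eps * m) 0 1 (by ring)
    have hU1P : U1 ∈ P := mem_U hP hb hU1
    have e1 : n = 1 + (m : ℤ) ^ 2 * w := by linear_combination hw
    have h4 : A3 * R = L1 * U1 := by
      refine lam_eq (lam_congr (lam_mul hA3 hR) ?_ ?_ ?_ ?_) (lam_mul hL1 hU1)
      · linear_combination e1 - (m : ℤ) ^ 2 * w * he
      · ring
      · ring
      · have e2 : n * d - (eps * m * q ^ 2) * c = 1 := hdet
        linear_combination e2 - d * e1 + (m : ℤ) ^ 2 * w * d * he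
    have h5 : A3 * R ∈ P := by
      rw [h4]; exact P.mul_mem hL1P hU1P
    have h6 := P.mul_mem h5 (P.inv_mem hRP)
    rwa [mul_inv_cancel_right] at h6
  have h7 : A = (A * B) * (A3 * B)⁻¹ * A3 := by group
  rw [h7]
  exact P.mul_mem (P.mul_mem h1 (P.inv_mem h2)) h3

end Sym99

open Sym99 in
theorem t_sym99 (h : StSQ) : StSYM := by
  intro g P m hg hP i a b c d ha hb hc hd hdet A hA
  have hm0 : (0 : ℤ) < m := by exact_mod_cast hP.pos
  have hm4 : (4 : ℤ) ∣ m := by exact_mod_cast hP.four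
  have hmm : (m : ℤ) ∣ (m : ℤ) ^ 2 := Dvd.intro_left _ (sq (m : ℤ)).symm
  have h16 : (16 : ℤ) ∣ (m : ℤ) ^ 2 := by
    obtain ⟨s, hs⟩ := hm4
    exact ⟨s ^ 2, by rw [hs]; ring⟩
  by_cases hb0 : b = 0
  · subst hb0
    have h1 : a * d = 1 := by linear_combination hdet
    have h2 : a = 1 := by
      rcases Int.eq_one_or_neg_one_of_mul_eq_one h1 with h2 | h2
      · exact h2
      · exfalso
        rw [h2] at ha
        have h3 := h16.trans ha
        norm_num at h3
    subst h2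
    have h3 : d = 1 := by linarith
    subst h3
    exact mem_L hP (hmm.trans hc) hA
  obtain ⟨k, hk⟩ : ∃ k : Fin g, i ≠ k := by
    have : Nontrivial (Fin g) := Fin.nontrivial_iff_two_le.2 hg
    obtain ⟨k, hk⟩ := exists_ne i
    exact ⟨k, hk.symm⟩
  -- Dirichlet
  have hcop1 : IsCoprime a b := ⟨d, -c, by linear_combination hdet⟩
  have hcop2 : IsCoprime a (m : ℤ) := by
    obtain ⟨s, hs⟩ := ha
    exact ⟨1, -(m : ℤ) * s, by linear_combination hs⟩
  have hn0 : (m : ℤ) * b ≠ 0 := mul_ne_zero hm0.ne' hb0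
  obtain ⟨p, hp, ⟨t, ht⟩, hpn⟩ := dirichlet a (m * b) hn0 (hcop2.mul_right hcop1)
  have := Fact.mk hp
  -- `-p = a - t m b`
  have hpc : IsCoprime (p : ℤ) ((m : ℤ) * b) := by
    obtain ⟨u, v, huv⟩ := hcop2.mul_right hcop1
    exact ⟨-u, v + u * t, by linear_combination huv - u * ht⟩
  have hpu : ¬ IsUnit (p : ℤ) := (Nat.prime_iff_prime_int.1 hp).not_isUnit
  have hpb : ¬ (p : ℤ) ∣ b := fun h =>
    hpu (hpc.isUnit_of_dvd' dvd_rfl (h.mul_left _))
  have hpm : ¬ (p : ℤ) ∣ m := fun h =>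
    hpu (hpc.isUnit_of_dvd' dvd_rfl (h.mul_right _))
  have hp1 : (m : ℤ) ^ 2 ∣ (p : ℤ) + 1 := by
    have e : (p : ℤ) + 1 = m * b * t - (a - 1) := by linear_combination ht
    rw [e]
    exact dvd_sub ((hb.mul_left (m : ℤ)).mul_right t) ha
  have hp3 : p % 4 = 3 := by
    have h1 := h16.trans hp1
    omega
  obtain ⟨eps, q, heps, hq, ⟨s, hs⟩⟩ := sq_exists p hp3 b m hpb hpm
  have he : eps * eps = 1 := by rcases heps with rfl | rfl <;> norm_num
  have hms : (m : ℤ) ∣ s := by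
    have h1 : (m : ℤ) ∣ p * s := by
      rw [← hs]
      exact dvd_sub ((Dvd.intro_left _ rfl : (m : ℤ) ∣ eps * m).mul_right _) (hmm.trans hb)
    exact (IsCoprime.symm (hpc.of_mul_right_left)).dvd_of_dvd_mul_left h1
  -- the matrices
  obtain ⟨R1, hR1⟩ := exists_lam i 1 0 (-((m : ℤ) * t)) 1 (by ring)
  have hR1P : R1 ∈ P := mem_L hP (Dvd.dvd.neg_right (Dvd.intro _ rfl)) hR1
  obtain ⟨R2, hR2⟩ := exists_lam i 1 (-s) 0 1 (by ring)
  have hR2P : R2 ∈ P := mem_U hP (hms.neg_right) hR2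
  have h1 := lam_mul (lam_mul hA hR1) hR2
  have h2 : A * R1 * R2 ∈ P := by
    refine core h hP hk (n := -(p : ℤ)) (eps := eps) (q := q) (c := c - d * (m * t))
      (d := d - s * (c - d * (m * t))) he hq ?_ ?_ ?_ ?_ (lam_congr h1 ?_ ?_ ?_ ?_)
    · have e : -(p : ℤ) - 1 = -((p : ℤ) + 1) := by ring
      rw [e]
      exact hp1.neg_right
    · exact dvd_sub (hmm.trans hc) (Dvd.dvd.mul_left (Dvd.intro _ rfl) _)
    · have e : d - s * (c - d * (m * t)) - 1 = (d - 1) - s * (c - d * (m * t)) := by ring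
      rw [e]
      exact dvd_sub (hmm.trans hd) (hms.mul_right _)
    · linear_combination hdet - (c - d * (m * t)) * hs - d * ht
    · linear_combination ht
    · linear_combination (-1 : ℤ) * hs - s * ht
    · ring
    · ring
  have h3 := P.mul_mem (P.mul_mem h2 (P.inv_mem hR2P)) (P.inv_mem hR1P)
  rwa [mul_inv_cancel_right, mul_inv_cancel_right] at h3

end Pool.Agent.TH933.SPC

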